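import Pool.Agent.Y92.RB.Sig

set_option autoImplicit false

/-! Purely imaginary multiplications: quasi-periods and the value of the Ribet point. -/

open Filter hiding ker mem_ker
open scoped Topology PeriodPair Classical

noncomputable section

namespace Pool.Agent.Y92.RB

open H667R3 Pool.Agent.W245.EB

variable {L : PeriodPair} {β : ℂ}

theorem im_ne_zero (hβ : β ≠ 0) (hre : β.re = 0) : β.im ≠ 0 := fun h =>
  hβ (Complex.ext hre h)

theorem sq_eq (hβ : β ≠ 0) (hre : β.re = 0) (hm : ∀ w ∈ L.lattice, β * w ∈ L.lattice) :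
    ∃ Δ : ℕ, 0 < Δ ∧ β * β = -(Δ : ℂ) := by
  obtain ⟨T, Δ, hΔ, h⟩ := exists_det hβ hm
  have him := im_ne_zero hβ hre
  have h1 := congrArg Complex.im h
  have h2 := congrArg Complex.re h
  simp only [Complex.mul_im, Complex.mul_re, Complex.sub_re, Complex.sub_im, Complex.intCast_re,
    Complex.intCast_im, hre] at h1 h2
  have hT : (T : ℝ) = 0 := by
    have : β.im * (T : ℝ) = 0 := by linarith
    exact (mul_eq_zero.1 this).resolve_left him
  have hT0 : T = 0 := by exact_mod_cast hT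
  have hpos : (0 : ℝ) < Δ := by
    have h3 : 0 < β.im * β.im := mul_self_pos.2 him
    linarith
  have hpos' : 0 < Δ := by exact_mod_cast hpos
  refine ⟨Δ.toNat, by omega, ?_⟩
  have h3 : ((Δ.toNat : ℕ) : ℂ) = (Δ : ℂ) := by
    have := Int.toNat_of_nonneg hpos'.le
    exact_mod_cast this
  rw [h3]
  rw [hT0] at h
  push_cast at h
  linear_combination -h

theorem eq_zero_of_quasi {s ρ : ℂ} (h : ∀ w ∈ L.lattice, s * eta L w + ρ * w = 0) :
    s = 0 ∧ ρ = 0 := by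
  by_contra hcon
  have h1 : s ≠ 0 ∨ ρ ≠ 0 := by
    by_contra h2
    push Not at h2
    exact hcon h2
  obtain ⟨w, hw, h2⟩ := exists_quasi_period L h1
  exact h2 (h w hw)

/-- the number of elements of the kernel -/
theorem card_eq (hβ : β ≠ 0) (hre : β.re = 0) (hm : ∀ w ∈ L.lattice, β * w ∈ L.lattice) {c : ℂ}
    (hc : ∀ z, β * z ∉ L.lattice →
      β ^ 2 * ℘[L] (β * z) = ∑ x ∈ ker hβ hm, ℘[L] (z - x.out) + c) :
    ((ker hβ hm).card : ℂ) = -(β * β) := by
  obtain ⟨Δ, hΔ, h⟩ := sq_eq hβ hre hm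
  set N := (ker hβ hm).card with hN
  have hNpos : 0 < N := Finset.card_pos.2 ⟨0, zero_mem_ker hβ hm⟩
  have h0 := (eq_zero_of_quasi (L := L) (s := (N : ℂ) * N - β * β * (β * β))
    (ρ := -(c * N + c * (β * β))) (by
    intro w hw
    have e1 := eta_mul hβ hm hc hw
    have e2 := eta_mul hβ hm hc (hm _ hw)
    have e3 : β * (β * w) = ((-(Δ : ℤ) : ℤ) : ℂ) * w := by
      push_cast
      rw [← mul_assoc, h]
    rw [e3, eta_zsmul L hw] at e2
    push_cast at e2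
    rw [← h] at e2
    linear_combination (-(N : ℂ)) * e1 - β * e2)).1
  have h1 : ((N : ℂ) - β * β) * (N + β * β) = 0 := by linear_combination h0
  rcases mul_eq_zero.1 h1 with h2 | h2
  · exfalso
    have h3 : (N : ℂ) = -(Δ : ℂ) := by rw [← h]; linear_combination h2
    have h4 : (N : ℝ) = -(Δ : ℝ) := by exact_mod_cast h3
    have h5 : (0 : ℝ) < N := by exact_mod_cast hNpos
    have h6 : (0 : ℝ) < Δ := by exact_mod_cast hΔ
    linarith
  · linear_combination h2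

theorem eta_beta (hβ : β ≠ 0) (hre : β.re = 0) (hm : ∀ w ∈ L.lattice, β * w ∈ L.lattice) {c : ℂ}
    (hc : ∀ z, β * z ∉ L.lattice →
      β ^ 2 * ℘[L] (β * z) = ∑ x ∈ ker hβ hm, ℘[L] (z - x.out) + c) {w : ℂ}
    (hw : w ∈ L.lattice) : eta L (β * w) = -β * eta L w - c / β * w := by
  have e1 := eta_mul hβ hm hc hw
  rw [card_eq hβ hre hm hc] at e1
  apply mul_left_cancel₀ hβ
  rw [e1]
  field_simp

theorem one_add_ne (hre : β.re = 0) : 1 + β ≠ 0 := by
  intro h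
  have := congrArg Complex.re h
  simp [hre] at this

theorem hm_one_add (hm : ∀ w ∈ L.lattice, β * w ∈ L.lattice) :
    ∀ w ∈ L.lattice, (1 + β) * w ∈ L.lattice := by
  intro w hw
  have := add_mem hw (hm w hw)
  convert this using 1
  ring

theorem card_one_add (hβ : β ≠ 0) (hre : β.re = 0) (hm : ∀ w ∈ L.lattice, β * w ∈ L.lattice)
    {c c₁ : ℂ}
    (hc : ∀ z, β * z ∉ L.lattice →
      β ^ 2 * ℘[L] (β * z) = ∑ x ∈ ker hβ hm, ℘[L] (z - x.out) + c)
    (hc₁ : ∀ z, (1 + β) * z ∉ L.lattice → (1 + β) ^ 2 * ℘[L] ((1 + β) * z) =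
      ∑ x ∈ ker (one_add_ne hre) (hm_one_add hm), ℘[L] (z - x.out) + c₁) :
    (ker (one_add_ne hre) (hm_one_add hm)).card = (ker hβ hm).card + 1 ∧
      c₁ - c = c / β := by
  have hN := card_eq hβ hre hm hc
  set N := (ker hβ hm).card
  set N₁ := (ker (one_add_ne hre) (hm_one_add hm)).card with hN₁
  obtain ⟨h1, h2⟩ := eq_zero_of_quasi (L := L) (s := (1 + β) * (1 - β) - N₁)
    (ρ := c₁ - (1 + β) * (c / β)) (by
    intro w hw
    have e1 := eta_mul (one_add_ne hre) (hm_one_add hm) hc₁ hw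
    have e2 : (1 + β) * w = w + β * w := by ring
    rw [e2, eta_add L hw (hm _ hw), eta_beta hβ hre hm hc hw] at e1
    linear_combination e1)
  constructor
  · have h3 : (N₁ : ℂ) = ((N + 1 : ℕ) : ℂ) := by
      push_cast
      rw [hN]
      linear_combination -h1
    exact_mod_cast h3
  · have h4 : (1 + β) * (c / β) = c / β + c := by
      field_simp
    linear_combination h2 + h4

/-- the square of the fibre coordinate of the Ribet point -/
theorem ribet_sq (hβ : β ≠ 0) (hre : β.re = 0) (hm : ∀ w ∈ L.lattice, β * w ∈ L.lattice)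
    {c c₁ : ℂ}
    (hc : ∀ z, β * z ∉ L.lattice →
      β ^ 2 * ℘[L] (β * z) = ∑ x ∈ ker hβ hm, ℘[L] (z - x.out) + c)
    (hc₁ : ∀ z, (1 + β) * z ∉ L.lattice → (1 + β) ^ 2 * ℘[L] ((1 + β) * z) =
      ∑ x ∈ ker (one_add_ne hre) (hm_one_add hm), ℘[L] (z - x.out) + c₁)
    {p : ℂ} (hq : β * p ∉ L.lattice) (hpq : (1 + β) * p ∉ L.lattice) :
    (serreF L (β * p) p * Complex.exp (p * zeta L (β * p) + c / β * p ^ 2 / 2)) ^ 2 =
      (1 + β) ^ 2 * (∏ x ∈ (ker (one_add_ne hre) (hm_one_add hm)).erase 0,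
        (℘[L] p - ℘[L] x.out)) /
      (β ^ 2 * ∏ x ∈ (ker hβ hm).erase 0, (℘[L] p - ℘[L] x.out)) := by
  obtain ⟨hcard, hcc⟩ := card_one_add hβ hre hm hc hc₁
  have hp := notMem_of_mul hm hq
  have s1 := sigma_ne_zero L hp
  have s2 := sigma_ne_zero L hq
  have f1 := sigma_mul_sq hβ hm hc hq
  have f2 := sigma_mul_sq (one_add_ne hre) (hm_one_add hm) hc₁ hpq
  have n1 := prod_ne_zero hβ hm hq
  rw [hcard, pow_succ (sigma L p ^ 2)] at f2
  set P₁ := ∏ x ∈ (ker (one_add_ne hre) (hm_one_add hm)).erase 0, (℘[L] p - ℘[L] x.out)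
  set P₂ := ∏ x ∈ (ker hβ hm).erase 0, (℘[L] p - ℘[L] x.out)
  have e0 : p + β * p = (1 + β) * p := by ring
  have e1 : serreF L (β * p) p * Complex.exp (p * zeta L (β * p) + c / β * p ^ 2 / 2) =
      sigma L ((1 + β) * p) / (sigma L p * sigma L (β * p)) *
        Complex.exp (c / β * p ^ 2 / 2) := by
    rw [serreF, e0, mul_assoc, ← Complex.exp_add]
    congr 2
    ring
  have e2 : Complex.exp (c / β * p ^ 2 / 2) ^ 2 = Complex.exp (c / β * p ^ 2) := by
    rw [← Complex.exp_nat_mul]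
    congr 1
    push_cast
    ring
  have e3 : Complex.exp (-(c₁ * p ^ 2)) * Complex.exp (c / β * p ^ 2) =
      Complex.exp (-(c * p ^ 2)) := by
    rw [← Complex.exp_add, ← hcc]
    congr 1
    ring
  have e4 := Complex.exp_ne_zero (-(c * p ^ 2))
  rw [e1, mul_pow, div_pow, mul_pow, e2, f2]
  have key : (1 + β) ^ 2 * Complex.exp (-(c₁ * p ^ 2)) *
      ((sigma L p ^ 2) ^ (ker hβ hm).card * sigma L p ^ 2) * P₁ /
        (sigma L p ^ 2 * sigma L (β * p) ^ 2) * Complex.exp (c / β * p ^ 2) =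
      (1 + β) ^ 2 * (Complex.exp (-(c₁ * p ^ 2)) * Complex.exp (c / β * p ^ 2)) *
      (sigma L p ^ 2) ^ (ker hβ hm).card * P₁ / sigma L (β * p) ^ 2 := by
    field_simp
  rw [key, e3, f1]
  have s3 : (sigma L p ^ 2) ^ (ker hβ hm).card ≠ 0 := pow_ne_zero _ (pow_ne_zero _ s1)
  field_simp

/-- the fibre coordinate of the Ribet point is algebraic -/
theorem ribet_alg (h2 : IsAlgebraic ℚ L.g₂) (h3 : IsAlgebraic ℚ L.g₃)
    (hβ : β ≠ 0) (hre : β.re = 0) (hm : ∀ w ∈ L.lattice, β * w ∈ L.lattice) :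
    ∃ s : ℂ, IsAlgebraic ℚ s ∧ ∀ p, β * p ∉ L.lattice → (1 + β) * p ∉ L.lattice →
      IsAlgebraic ℚ (℘[L] p) →
      IsAlgebraic ℚ (serreF L (β * p) p * Complex.exp (p * zeta L (β * p) + s * p ^ 2)) := by
  obtain ⟨c, hcQ, hc⟩ := wp_mul_alg h2 h3 hβ hm
  obtain ⟨c₁, hc₁Q, hc₁⟩ := wp_mul_alg h2 h3 (one_add_ne hre) (hm_one_add hm)
  have hβQ : β ∈ QB := mem_QB.2 (alg_of_mul hm)
  refine ⟨c / β / 2, mem_QB.1 (div_mem (div_mem hcQ hβQ) (ofNat_mem QB 2)), ?_⟩
  intro p hq hpq hP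
  have key := ribet_sq hβ hre hm hc hc₁ hq hpq
  have e : c / β / 2 * p ^ 2 = c / β * p ^ 2 / 2 := by ring
  rw [e]
  apply IsAlgebraic.of_pow (n := 2) two_pos
  rw [key, ← mem_QB]
  have hPQ : ℘[L] p ∈ QB := mem_QB.2 hP
  have hout : ∀ {α : ℂ} {hα : α ≠ 0} {hm' : ∀ w ∈ L.lattice, α * w ∈ L.lattice} {x : Qt L},
      x ∈ (ker hα hm').erase 0 → ℘[L] x.out ∈ QB := by
    intro α hα hm' x hx
    rw [mem_QB]
    exact (out_mem_EL h2 h3 (Finset.mem_of_mem_erase hx)).resolve_left (out_notMem hx)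
  refine div_mem (mul_mem (pow_mem (add_mem (one_mem _) hβQ) 2) (prod_mem fun x hx =>
    sub_mem hPQ (hout hx))) (mul_mem (pow_mem hβQ 2) (prod_mem fun x hx =>
    sub_mem hPQ (hout hx)))

end Pool.Agent.Y92.RB
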