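import Pool.Agent.Y92.RB.NoAlg
import Pool.Agent.Y92.RB.Beta
import Pool.Agent.H667R3.E3

set_option autoImplicit false

/-! The third kind integral of the Ribet point is not a rational combination of periods. -/

open Module
open Filter hiding ker mem_ker
open scoped Topology Nat PeriodPair Classical

noncomputable section

namespace Pool.Agent.Y92.RB

open H667R3 Pool.Agent.W245.EB
open Complex (I)

variable {L : PeriodPair} {β : ℂ}

theorem natCast_mul_mem (L : PeriodPair) {l : ℂ} (hl : l ∈ L.lattice) (n : ℕ) :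
    (n : ℂ) * l ∈ L.lattice := by
  have := intCast_mul_mem L hl (n : ℤ)
  simpa using this

theorem nontors (hβ : β ≠ 0) (hre : β.re = 0) (hm : ∀ w ∈ L.lattice, β * w ∈ L.lattice) {p : ℂ}
    (hnt : ∀ n : ℕ, 0 < n → (n : ℂ) * p ∉ L.lattice) (n : ℕ) :
    (n : ℂ) * p + β * p ∉ L.lattice ∧ (n : ℂ) * p - β * p ∉ L.lattice := by
  obtain ⟨Δ, hΔ, h⟩ := sq_eq hβ hre hm
  have hmem := hnt (n ^ 2 + Δ) (by positivity)
  constructor
  · intro h'
    apply hmem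
    have h1 := sub_mem (natCast_mul_mem L h' n) (hm _ h')
    convert h1 using 1
    push_cast
    linear_combination p * h
  · intro h'
    apply hmem
    have h1 := add_mem (natCast_mul_mem L h' n) (hm _ h')
    convert h1 using 1
    push_cast
    linear_combination p * h

theorem leg_ne (L : PeriodPair) : L.ω₁ * eta L L.ω₂ - L.ω₂ * eta L L.ω₁ ≠ 0 := by
  intro h
  have h0 : L.ω₁ = 0 := by
    refine (eq_zero_of_quasi (L := L) (s := L.ω₁) (ρ := -eta L L.ω₁) (fun w hw => ?_)).1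
    obtain ⟨a, b, rfl⟩ := PeriodPair.mem_lattice.1 hw
    have m1 := intCast_mul_mem L L.ω₁_mem_lattice a
    have m2 := intCast_mul_mem L L.ω₂_mem_lattice b
    rw [eta_add L m1 m2, eta_zsmul L L.ω₁_mem_lattice, eta_zsmul L L.ω₂_mem_lattice]
    linear_combination (b : ℂ) * h
  exact ω₁_ne_zero L h0

/-- Legendre's relation, up to a rational factor -/
theorem legendre (L : PeriodPair) : ∃ n : ℤ, n ≠ 0 ∧
    L.ω₁ * eta L L.ω₂ - L.ω₂ * eta L L.ω₁ = n * (2 * Real.pi * Complex.I) := by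
  obtain ⟨C₁, hC₁, h₁⟩ := sigma_add_coe L L.ω₁_mem_lattice
  obtain ⟨C₂, hC₂, h₂⟩ := sigma_add_coe L L.ω₂_mem_lattice
  obtain ⟨z, hz⟩ : ∃ z, z ∉ L.lattice := ⟨_, L.ω₁_div_two_notMem_lattice⟩
  have hs := sigma_ne_zero L hz
  have e1 := h₁ (z + L.ω₂)
  rw [h₂ z] at e1
  have e2 := h₂ (z + L.ω₁)
  rw [h₁ z] at e2
  have e3 : z + L.ω₂ + L.ω₁ = z + L.ω₁ + L.ω₂ := by ring
  rw [e3, e2] at e1
  have e4 : Complex.exp (eta L L.ω₂ * (z + L.ω₁)) * Complex.exp (eta L L.ω₁ * z) =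
      Complex.exp (eta L L.ω₁ * (z + L.ω₂)) * Complex.exp (eta L L.ω₂ * z) := by
    apply mul_left_cancel₀ (mul_ne_zero (mul_ne_zero hC₁ hC₂) hs)
    linear_combination e1
  rw [← Complex.exp_add, ← Complex.exp_add, Complex.exp_eq_exp_iff_exists_int] at e4
  obtain ⟨n, hn⟩ := e4
  have e5 : L.ω₁ * eta L L.ω₂ - L.ω₂ * eta L L.ω₁ = n * (2 * Real.pi * Complex.I) := by
    linear_combination hn
  refine ⟨n, ?_, e5⟩
  rintro rfl
  apply leg_ne L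
  rw [e5, Int.cast_zero, zero_mul]

theorem alg_wp' (h2 : IsAlgebraic ℚ L.g₂) (h3 : IsAlgebraic ℚ L.g₃) {q : ℂ} (hq : q ∉ L.lattice)
    (h : IsAlgebraic ℚ (℘[L] q)) : IsAlgebraic ℚ (℘'[L] q) := by
  apply IsAlgebraic.of_pow (n := 2) two_pos
  rw [L.derivWeierstrassP_sq q hq, ← mem_QB]
  rw [← mem_QB] at h2 h3 h
  exact sub_mem (sub_mem (mul_mem (ofNat_mem QB 4) (pow_mem h 3)) (mul_mem h2 h)) h3

theorem alg_wp_mul (h2 : IsAlgebraic ℚ L.g₂) (h3 : IsAlgebraic ℚ L.g₃)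
    (hm : ∀ w ∈ L.lattice, β * w ∈ L.lattice) {p : ℂ} (hq : β * p ∉ L.lattice)
    (hP : IsAlgebraic ℚ (℘[L] p)) : IsAlgebraic ℚ (℘[L] (β * p)) :=
  (mul_mem_EL h2 h3 hm (Or.inr hP)).resolve_left hq

theorem notMem_V (h2 : IsAlgebraic ℚ L.g₂) (h3 : IsAlgebraic ℚ L.g₃)
    (hβ : β ≠ 0) (hre : β.re = 0) (hm : ∀ w ∈ L.lattice, β * w ∈ L.lattice) {p c T₀ : ℂ}
    (hnt : ∀ n : ℕ, 0 < n → (n : ℂ) * p ∉ L.lattice) (hP : IsAlgebraic ℚ (℘[L] p))
    (hc : IsAlgebraic ℚ c)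
    (hr : IsAlgebraic ℚ (serreF L (β * p) p * Complex.exp T₀)) :
    ¬ ∃ a b₁ b₂ : ℚ, T₀ + c * p = a * (2 * Real.pi * I) +
      b₁ * lam L (β * p) c L.ω₁ + b₂ * lam L (β * p) c L.ω₂ := by
  rintro ⟨a, b₁, b₂, hV⟩
  have hω₁m := L.ω₁_mem_lattice
  have hω₂m := L.ω₂_mem_lattice
  have hp : p ∉ L.lattice := by simpa using hnt 1 one_pos
  have hntI := fun n => nontors hβ hre hm hnt n
  have hq' : β * p ∉ L.lattice := by simpa using (hntI 0).1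
  have hPqa := alg_wp_mul h2 h3 hm hq' hP
  have hPqa' := alg_wp' h2 h3 hq' hPqa
  have hPp'a := alg_wp' h2 h3 hp hP
  -- the number field
  set S : Finset ℂ := {L.g₂, ℘[L] p, ℘'[L] p, ℘[L] (β * p), ℘'[L] (β * p), c,
    serreF L (β * p) p * Complex.exp T₀} with hS
  have hSalg : ∀ x ∈ (S : Set ℂ), IsAlgebraic ℚ x := by
    intro x hx
    rw [Finset.mem_coe, hS] at hx
    simp only [Finset.mem_insert, Finset.mem_singleton] at hx
    rcases hx with rfl | rfl | rfl | rfl | rfl | rfl | rfl <;> assumption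
  let F : IntermediateField ℚ ℂ := IntermediateField.adjoin ℚ (S : Set ℂ)
  have hfd : FiniteDimensional ℚ F :=
    IntermediateField.finiteDimensional_adjoin fun x hx => (hSalg x hx).isIntegral
  have hSF : ∀ x ∈ S, x ∈ F := fun x hx => IntermediateField.subset_adjoin ℚ _ hx
  set Ki : Subfield ℂ := F.toSubfield with hKi
  have hSK : ∀ x ∈ S, x ∈ Ki := hSF
  have hg₂K : L.g₂ ∈ Ki := hSK _ (by simp [hS])
  have hPpK : ℘[L] p ∈ Ki := hSK _ (by simp [hS])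
  have hPpK' : ℘'[L] p ∈ Ki := hSK _ (by simp [hS])
  have hPq : ℘[L] (β * p) ∈ Ki := hSK _ (by simp [hS])
  have hPq' : ℘'[L] (β * p) ∈ Ki := hSK _ (by simp [hS])
  have hcK : c ∈ Ki := hSK _ (by simp [hS])
  have hrK : serreF L (β * p) p * Complex.exp T₀ ∈ Ki := hSK _ (by simp [hS])
  set q := β * p with hqdef
  -- common denominator
  obtain ⟨N, A, B₁, B₂, hN, hA, hB₁, hB₂⟩ : ∃ (N : ℕ) (A B₁ B₂ : ℤ), 0 < N ∧
      (N : ℂ) * a = A ∧ (N : ℂ) * b₁ = B₁ ∧ (N : ℂ) * b₂ = B₂ := by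
    refine ⟨a.den * b₁.den * b₂.den, a.num * b₁.den * b₂.den, b₁.num * a.den * b₂.den,
      b₂.num * a.den * b₁.den, ?_, ?_, ?_, ?_⟩
    · have := a.den_pos; have := b₁.den_pos; have := b₂.den_pos; positivity
    · have : (a.den : ℂ) * a = a.num := by exact_mod_cast Rat.den_mul_eq_num a
      push_cast
      linear_combination (b₁.den * b₂.den : ℂ) * this
    · have : (b₁.den : ℂ) * b₁ = b₁.num := by exact_mod_cast Rat.den_mul_eq_num b₁
      push_cast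
      linear_combination (a.den * b₂.den : ℂ) * this
    · have : (b₂.den : ℂ) * b₂ = b₂.num := by exact_mod_cast Rat.den_mul_eq_num b₂
      push_cast
      linear_combination (a.den * b₁.den : ℂ) * this
  set μ : ℂ := B₁ * L.ω₁ + B₂ * L.ω₂ with hμ
  have hμ1 := intCast_mul_mem L hω₁m B₁
  have hμ2 := intCast_mul_mem L hω₂m B₂
  have hμm : μ ∈ L.lattice := add_mem hμ1 hμ2
  have hlamμ : lam L q c μ = B₁ * lam L q c L.ω₁ + B₂ * lam L q c L.ω₂ := by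
    rw [hμ, lam_add hμ1 hμ2, lam_zsmul hω₁m, lam_zsmul hω₂m]
  set Tc : ℂ := T₀ + c * p with hTc
  have hNT : (N : ℂ) * Tc = A * (2 * Real.pi * I) + lam L q c μ := by
    rw [hlamμ, hV, ← hA, ← hB₁, ← hB₂]; ring
  set z₀ : ℂ := N * p - μ with hz₀
  -- transfer to multiples of p
  have htr : ∀ n : ℕ, (n : ℂ) * z₀ = ((n * N : ℕ) : ℂ) * p + (-((n : ℤ) * μ)) := by
    intro n; rw [hz₀]; push_cast; ring
  have hmm : ∀ n : ℕ, (-((n : ℤ) * μ) : ℂ) ∈ L.lattice := fun n =>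
    neg_mem (intCast_mul_mem L hμm (n : ℤ))
  have hpos : ∀ n : ℕ, 0 < n → 0 < n * N := fun n hn => Nat.mul_pos hn hN
  have z1 : ∀ n : ℕ, 0 < n → (n : ℂ) * z₀ ∉ L.lattice := by
    intro n hn h
    rw [htr n] at h
    exact hnt _ (hpos n hn) ((add_mem_iff L (hmm n)).mp h)
  have z2 : ∀ n : ℕ, 0 < n → (n : ℂ) * z₀ + q ∉ L.lattice := by
    intro n hn h
    rw [htr n, add_right_comm] at h
    exact (hntI (n * N)).1 ((add_mem_iff L (hmm n)).mp h)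
  have z3 : ∀ n : ℕ, 0 < n → (n : ℂ) * z₀ - q ∉ L.lattice := by
    intro n hn h
    rw [htr n, add_sub_right_comm] at h
    exact (hntI (n * N)).2 ((add_mem_iff L (hmm n)).mp h)
  have z4 : ∀ n : ℕ, 0 < n → ℘[L] (n * z₀) ∈ Ki := by
    intro n hn
    have := L.weierstrassP_add_coe (((n * N : ℕ) : ℂ) * p) ⟨_, hmm n⟩
    rw [htr n, this]
    exact (wp_nmul_mem L Ki hg₂K hnt hPpK hPpK' _ (hpos n hn)).1
  have z5 : ∀ n : ℕ, 0 < n → ℘'[L] (n * z₀) ∈ Ki := by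
    intro n hn
    have := L.derivWeierstrassP_add_coe (((n * N : ℕ) : ℂ) * p) ⟨_, hmm n⟩
    rw [htr n, this]
    exact (wp_nmul_mem L Ki hg₂K hnt hPpK hPpK' _ (hpos n hn)).2
  have zq : ∀ m : ℕ, 0 < m → ℘[L] (m * p + q) ∈ Ki := by
    intro m hm
    obtain ⟨e1, e2⟩ := wp_nmul_mem L Ki hg₂K hnt hPpK hPpK' _ hm
    have c1 : 2 * ((m : ℂ) * p) ∉ L.lattice := by
      have := hnt (2 * m) (by omega)
      push_cast at this
      rwa [mul_assoc] at this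
    rw [wp_add L c1 hq' (hntI m).1 (hntI m).2]
    exact mem_add Ki e1 e2 hg₂K hPq hPq'
  have z6 : ∀ n : ℕ, 0 < n → ℘[L] (n * z₀ + q) ∈ Ki := by
    intro n hn
    have := L.weierstrassP_add_coe (((n * N : ℕ) : ℂ) * p + q) ⟨_, hmm n⟩
    rw [htr n, add_right_comm, this]
    exact zq _ (hpos n hn)
  -- the value of F_c at z₀
  set r := serreF L q p * Complex.exp T₀ with hrdef
  obtain ⟨e, heK, -, hfe⟩ := serreF_nmul L Ki hq' hnt (fun n _ => (hntI n).1)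
    (fun n hn => (wp_nmul_mem L Ki hg₂K hnt hPpK hPpK' n hn).1) hPpK' zq N hN
  have hFz₀ : Fc L q c z₀ = e * r ^ N := by
    have h1 : z₀ = (N : ℂ) * p + (-μ) := by rw [hz₀]; ring
    have h2 := Fc_add_coe L (neg_mem hμm) q c ((N : ℂ) * p)
    have h3 : -μ * zeta L q - eta L (-μ) * q + c * (-μ) = - lam L q c μ := by
      have := lam_neg hμm q c
      rw [← this, lam]
    rw [h1, h2, h3, neg_neg]
    have h4 : Complex.exp (lam L q c μ) = Complex.exp Tc ^ N := by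
      have h5 : lam L q c μ = N * Tc + (-A : ℤ) * (2 * Real.pi * I) := by
        push_cast; linear_combination -hNT
      rw [h5, Complex.exp_add, Complex.exp_int_mul_two_pi_mul_I, mul_one, Complex.exp_nat_mul]
    have h6 : Complex.exp (-(c * ((N : ℂ) * p))) = Complex.exp (-(c * p)) ^ N := by
      rw [← Complex.exp_nat_mul]; congr 1; ring
    have h7 : Complex.exp Tc * Complex.exp (-(c * p)) = Complex.exp T₀ := by
      rw [← Complex.exp_add]; congr 1; rw [hTc]; ring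
    rw [h4, Fc, hfe, h6, hrdef, ← h7]
    rw [mul_pow, mul_pow]; ring
  have hFz₀K : Fc L q c z₀ ∈ Ki := by rw [hFz₀]; exact mul_mem heK (pow_mem hrK _)
  have z7 : ∀ n : ℕ, 0 < n → Fc L q c (n * z₀) ∈ Ki := by
    intro n hn
    obtain ⟨e', heK', -, hfe'⟩ := serreF_nmul L Ki hq' z1 z2 z4 (by simpa using z5 1 one_pos) z6 n hn
    have h6 : Complex.exp (-(c * ((n : ℂ) * z₀))) = Complex.exp (-(c * z₀)) ^ n := by
      rw [← Complex.exp_nat_mul]; congr 1; ring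
    have : Fc L q c (n * z₀) = e' * Fc L q c z₀ ^ n := by
      rw [Fc, hfe', h6, Fc, mul_pow]; ring
    rw [this]
    exact mul_mem heK' (pow_mem hFz₀K _)
  -- the multiplier is not a root of unity
  have hχ : ∃ l ∈ L.lattice, ∀ n : ℕ, 0 < n →
      Complex.exp (-(l * zeta L q - eta L l * q + c * l)) ^ n ≠ 1 := by
    by_contra hcon
    push Not at hcon
    obtain ⟨n₁, hn₁, h₁⟩ := hcon L.ω₁ hω₁m
    obtain ⟨n₂, hn₂, h₂⟩ := hcon L.ω₂ hω₂m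
    rw [← Complex.exp_nat_mul, Complex.exp_eq_one_iff] at h₁ h₂
    obtain ⟨k₁, h₁⟩ := h₁
    obtain ⟨k₂, h₂⟩ := h₂
    obtain ⟨n₀, hn₀, hleg⟩ := legendre L
    have hπ : (2 * Real.pi * I : ℂ) ≠ 0 := Complex.two_pi_I_ne_zero
    have e3 : (2 * Real.pi * I : ℂ) * ((n₁ : ℂ) * n₂ * n₀ * q -
        ((n₁ * k₂ : ℤ) * L.ω₁ - (n₂ * k₁ : ℤ) * L.ω₂)) = 0 := by
      push_cast
      linear_combination (-(n₂ * L.ω₂) : ℂ) * h₁ + (n₁ * L.ω₁ : ℂ) * h₂ -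
        (n₁ * n₂ * q : ℂ) * hleg
    have e4 : (n₁ : ℂ) * n₂ * n₀ * q = ((n₁ * k₂ : ℤ) * L.ω₁ - (n₂ * k₁ : ℤ) * L.ω₂) := by
      rcases mul_eq_zero.mp e3 with h | h
      · exact absurd h hπ
      · exact sub_eq_zero.mp h
    have e5 : (n₁ : ℂ) * n₂ * n₀ * q ∈ L.lattice := by
      rw [e4]
      exact sub_mem (intCast_mul_mem L hω₁m _) (intCast_mul_mem L hω₂m _)
    obtain ⟨Δ, hΔ, hΔ'⟩ := sq_eq hβ hre hm
    have e6 := intCast_mul_mem L (hm _ e5) (-n₀)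
    obtain ⟨m₀, hm₀, h8⟩ : ∃ m₀ : ℕ, 0 < m₀ ∧ (m₀ : ℂ) ^ 2 = (n₀ : ℂ) ^ 2 :=
      ⟨n₀.natAbs, Int.natAbs_pos.2 hn₀, by
        rw [← Int.cast_natCast, ← Int.cast_pow, Int.natAbs_sq, Int.cast_pow]⟩
    have e7 : ((-n₀ : ℤ) : ℂ) * (β * ((n₁ : ℂ) * n₂ * n₀ * q)) =
        ((n₁ * n₂ * m₀ ^ 2 * Δ : ℕ) : ℂ) * p := by
      push_cast
      rw [h8, hqdef]
      linear_combination (-(n₁ * n₂ * n₀ ^ 2 * p : ℂ)) * hΔ'
    rw [e7] at e6
    exact hnt _ (by positivity) e6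
  obtain ⟨l, hl, hχ⟩ := hχ
  exact no_alg L q c z₀ F hg₂K hq' hPq hPq' hcK z1 z2 z3 z4 z5 z7 l hl hχ

/-- linear independence of the periods and quasi-periods: solution of the linear system -/
theorem solve_mem (K : IntermediateField ℚ ℂ) (h1 : L.ω₁ ∈ K) (h2 : L.ω₂ ∈ K)
    (h3 : eta L L.ω₁ ∈ K) (h4 : eta L L.ω₂ ∈ K) {X q c : ℂ} (hc : c ∈ K)
    (e1 : L.ω₁ * X - eta L L.ω₁ * q + c * L.ω₁ ∈ K)
    (e2 : L.ω₂ * X - eta L L.ω₂ * q + c * L.ω₂ ∈ K) : X ∈ K ∧ q ∈ K := by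
  have hD := leg_ne L
  have f1 := sub_mem e1 (mul_mem hc h1)
  have f2 := sub_mem e2 (mul_mem hc h2)
  have hDK := sub_mem (mul_mem h1 h4) (mul_mem h2 h3)
  constructor
  · have : X = ((L.ω₁ * X - eta L L.ω₁ * q + c * L.ω₁ - c * L.ω₁) * eta L L.ω₂ -
        (L.ω₂ * X - eta L L.ω₂ * q + c * L.ω₂ - c * L.ω₂) * eta L L.ω₁) /
        (L.ω₁ * eta L L.ω₂ - L.ω₂ * eta L L.ω₁) := by
      rw [eq_div_iff hD]
      ring
    rw [this]
    exact div_mem (sub_mem (mul_mem f1 h4) (mul_mem f2 h3)) hDK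
  · have : q = ((L.ω₁ * X - eta L L.ω₁ * q + c * L.ω₁ - c * L.ω₁) * L.ω₂ -
        (L.ω₂ * X - eta L L.ω₂ * q + c * L.ω₂ - c * L.ω₂) * L.ω₁) /
        (L.ω₁ * eta L L.ω₂ - L.ω₂ * eta L L.ω₁) := by
      rw [eq_div_iff hD]
      ring
    rw [this]
    exact div_mem (sub_mem (mul_mem f1 h2) (mul_mem f2 h1)) hDK

/-- `ζ(p)` from `ζ(β p)` and `p` -/
theorem zeta_mem (h2 : IsAlgebraic ℚ L.g₂) (h3 : IsAlgebraic ℚ L.g₃) (hβ : β ≠ 0)
    (hm : ∀ w ∈ L.lattice, β * w ∈ L.lattice) (K : IntermediateField ℚ ℂ)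
    (hK : ∀ x : ℂ, IsAlgebraic ℚ x → x ∈ K) {p : ℂ} (hp : p ∉ L.lattice)
    (hq : β * p ∉ L.lattice) (hP : IsAlgebraic ℚ (℘[L] p)) (hpK : p ∈ K)
    (hz : zeta L (β * p) ∈ K) : zeta L p ∈ K := by
  obtain ⟨N, κ, hN, hκ, h⟩ := zt_mul h2 h3 hβ hm
  have h1 := h p (Or.inr hP)
  rw [zt_of_notMem hq, zt_of_notMem hp] at h1
  have hQK : ∀ x ∈ QB, x ∈ K := fun x hx => hK x (mem_QB.1 hx)
  have hβK : β ∈ K := hK _ (alg_of_mul hm)
  have hNK : (N : ℂ) ∈ K := natCast_mem _ _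
  have hN0 : (N : ℂ) ≠ 0 := by exact_mod_cast hN.ne'
  have e : zeta L p = (zeta L (β * p) - κ * p -
      (zeta L (β * p) - (N / β * zeta L p + κ * p))) * β / N := by
    field_simp
    ring
  rw [e]
  exact div_mem (mul_mem (sub_mem (sub_mem hz (mul_mem (hQK _ hκ) hpK)) (hQK _ h1)) hβK) hNK

end Pool.Agent.Y92.RB
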