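import Pool.Agent.Y92.RB.SL1
import Pool.Agent.H667R3.E1

set_option autoImplicit false

/-! Application of the theorem of Schneider and Lang to `℘` and Serre's function. -/

open Module Filter
open scoped Topology Nat PeriodPair

noncomputable section

namespace Pool.Agent.Y92.RB

open H667R3

/-- `W(z) = ζ(z+q) - ζ(z) - ζ(q)` -/
def Wf (L : PeriodPair) (q z : ℂ) : ℂ := (℘'[L] z - ℘'[L] q) / (2 * (℘[L] z - ℘[L] q))

theorem wp_ne (L : PeriodPair) {q z : ℂ} (hz : z ∉ L.lattice) (hq : q ∉ L.lattice)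
    (h1 : z + q ∉ L.lattice) (h2 : z - q ∉ L.lattice) : ℘[L] z - ℘[L] q ≠ 0 := by
  rw [sub_ne_zero, Ne, wp_eq_iff L hz hq]
  tauto

theorem hasDerivAt_Wf (L : PeriodPair) {q z : ℂ} (hz2 : 2 * z ∉ L.lattice) (hq : q ∉ L.lattice)
    (h1 : z + q ∉ L.lattice) (h2 : z - q ∉ L.lattice) :
    HasDerivAt (Wf L q) (2 * ℘[L] z + ℘[L] q - Wf L q z ^ 2) z := by
  have hz := two_mul_notMem_of L hz2
  have hu := wp_ne L hz hq h1 h2
  have e1 := L.derivWeierstrassP_sq z hz
  have e2 := L.derivWeierstrassP_sq q hq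
  have d := ((hasDerivAt_wp' L hz2).sub_const (℘'[L] q)).fun_div
    (((hasDerivAt_weierstrassP L hz).sub_const (℘[L] q)).const_mul 2) (mul_ne_zero two_ne_zero hu)
  refine d.congr_deriv ?_
  rw [Wf]
  field_simp
  linear_combination (-1 : ℂ) * e1 + e2

theorem hasDerivAt_Fc' (L : PeriodPair) {q c z : ℂ} (hz : z ∉ L.lattice) (hq : q ∉ L.lattice)
    (h1 : z + q ∉ L.lattice) (h2 : z - q ∉ L.lattice) :
    HasDerivAt (Fc L q c) (Fc L q c z * (Wf L q z - c)) z := by
  have hu := wp_ne L hz hq h1 h2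
  refine (hasDerivAt_Fc L hz hq h1 h2).congr_deriv ?_
  rw [Wf]
  field_simp

theorem infinite_good (L : PeriodPair) {q : ℂ} (hq : q ∉ L.lattice) :
    Set.Infinite {v : ℂ | ∃ z, 2 * z ∉ L.lattice ∧ z + q ∉ L.lattice ∧ z - q ∉ L.lattice ∧
      ℘[L] z = v} := by
  set p : Polynomial ℂ := Polynomial.C 4 * Polynomial.X ^ 3 - Polynomial.C L.g₂ * Polynomial.X -
    Polynomial.C L.g₃ with hp
  have hp0 : p ≠ 0 := by
    intro h
    have := congrArg (fun p => Polynomial.coeff p 3) h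
    simp [hp, Polynomial.coeff_X, Polynomial.coeff_C] at this
  have hfin : Set.Finite ({v | p.eval v = 0} ∪ {℘[L] q}) := by
    refine Set.Finite.union ?_ (Set.finite_singleton _)
    refine (p.roots.toFinset.finite_toSet).subset ?_
    intro x hx
    simp only [Finset.mem_coe, Multiset.mem_toFinset]
    rw [Polynomial.mem_roots hp0]
    exact hx
  refine hfin.infinite_compl.mono ?_
  intro v hv
  rw [Set.mem_compl_iff, Set.mem_union, not_or] at hv
  obtain ⟨z, hz, hzv⟩ := exists_wp_eq L v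
  have hne : ℘[L] z ≠ ℘[L] q := by
    rw [hzv]
    exact hv.2
  rw [Ne, wp_eq_iff L hz hq, not_or] at hne
  refine ⟨z, ?_, ?_, ?_, hzv⟩
  · intro h
    apply hv.1
    have h1 := wp'_half_eq_zero L h
    rw [mul_div_cancel_left₀ z (two_ne_zero)] at h1
    have h2 := L.derivWeierstrassP_sq z hz
    rw [h1, hzv] at h2
    show p.eval v = 0
    rw [hp]
    simp only [Polynomial.eval_sub, Polynomial.eval_mul, Polynomial.eval_C, Polynomial.eval_pow,
      Polynomial.eval_X]
    rw [← h2]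
    norm_num
  · tauto
  · tauto

theorem infinite_pow {χ y : ℂ} (hχ : ∀ n : ℕ, 0 < n → χ ^ n ≠ 1) (hχ0 : χ ≠ 0) (hy : y ≠ 0) :
    Set.Infinite (Set.range fun n : ℕ => χ ^ n * y) := by
  apply Set.infinite_range_of_injective
  intro m n hmn
  have hmn' : χ ^ m = χ ^ n := mul_right_cancel₀ hy hmn
  by_contra hne'
  rcases lt_or_gt_of_ne hne' with hlt | hlt
  · apply hχ (n - m) (by omega)
    have : χ ^ n = χ ^ m * χ ^ (n - m) := by rw [← pow_add]; congr 1; omega
    rw [this] at hmn'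
    have h2 : χ ^ m * (χ ^ (n - m) - 1) = 0 := by linear_combination -hmn'
    rcases mul_eq_zero.mp h2 with h3 | h3
    · exact absurd h3 (pow_ne_zero _ hχ0)
    · exact sub_eq_zero.mp h3
  · apply hχ (m - n) (by omega)
    have : χ ^ m = χ ^ n * χ ^ (m - n) := by rw [← pow_add]; congr 1; omega
    rw [this] at hmn'
    have h2 : χ ^ n * (χ ^ (m - n) - 1) = 0 := by linear_combination hmn'
    rcases mul_eq_zero.mp h2 with h3 | h3
    · exact absurd h3 (pow_ne_zero _ hχ0)
    · exact sub_eq_zero.mp h3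

theorem indep_C (L : PeriodPair) (F : ℂ → ℂ) (χ l q : ℂ) (hl : l ∈ L.lattice) (hq : q ∉ L.lattice)
    (hχ : ∀ n : ℕ, 0 < n → χ ^ n ≠ 1) (hχ0 : χ ≠ 0) (hF : ∀ z, F (z + l) = χ * F z)
    (hFne : ∀ z, z ∉ L.lattice → z + q ∉ L.lattice → F z ≠ 0)
    (P : MvPolynomial (Fin 2) ℂ)
    (h : ∀ z, 2 * z ∉ L.lattice → z + q ∉ L.lattice → z - q ∉ L.lattice →
      MvPolynomial.eval (Fin.cons (F z) ![℘[L] z]) P = 0) : P = 0 := by
  set G := MvPolynomial.finSuccEquiv ℂ 1 P with hG
  have step1 : ∀ z, 2 * z ∉ L.lattice → z + q ∉ L.lattice → z - q ∉ L.lattice →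
      Polynomial.map (MvPolynomial.eval ![℘[L] z]) G = 0 := by
    intro z h1 h2 h3
    have hz := two_mul_notMem_of L h1
    have hFn : ∀ n : ℕ, F (z + n * l) = χ ^ n * F z := by
      intro n
      induction n with
      | zero => simp
      | succ n ih =>
        have : z + ((n + 1 : ℕ) : ℂ) * l = (z + n * l) + l := by push_cast; ring
        rw [this, hF, ih]; ring
    apply Polynomial.eq_zero_of_infinite_isRoot
    refine (infinite_pow hχ hχ0 (hFne z hz h2)).mono ?_
    rintro _ ⟨n, rfl⟩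
    have hnl : (n : ℂ) * l ∈ L.lattice := by simpa using intCast_mul_mem L hl (n : ℤ)
    have hnl2 : 2 * ((n : ℂ) * l) ∈ L.lattice := by
      have := add_mem hnl hnl
      convert this using 1
      ring
    have h4 := h (z + n * l) (by rw [mul_add, add_mem_iff L hnl2]; exact h1)
      (by rw [add_right_comm, add_mem_iff L hnl]; exact h2)
      (by rw [add_sub_right_comm, add_mem_iff L hnl]; exact h3)
    rw [L.weierstrassP_add_coe z ⟨n * l, hnl⟩, hFn, MvPolynomial.eval_eq_eval_mv_eval'] at h4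
    exact h4
  have hG0 : G = 0 := by
    ext1 i
    rw [Polynomial.coeff_zero]
    apply MvPolynomial.funext_set
      (fun _ => {v : ℂ | ∃ z, 2 * z ∉ L.lattice ∧ z + q ∉ L.lattice ∧ z - q ∉ L.lattice ∧
        ℘[L] z = v}) (fun _ => infinite_good L hq)
    intro x hx
    obtain ⟨z, h1, h2, h3, h4⟩ := hx 0 (Set.mem_univ _)
    have h5 := step1 z h1 h2 h3
    have h6 := congrArg (fun p => Polynomial.coeff p i) h5
    simp only [Polynomial.coeff_map, Polynomial.coeff_zero] at h6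
    have h7 : ![℘[L] z] = x := by
      funext j
      rw [Fin.fin_one_eq_zero j]
      exact h4
    rw [h7] at h6
    rw [h6, map_zero]
  have h8 : MvPolynomial.finSuccEquiv ℂ 1 P = 0 := hG0
  exact (map_eq_zero_iff _ (MvPolynomial.finSuccEquiv ℂ 1).injective).1 h8

/-- the functions -/
def vals (L : PeriodPair) (q c z₀ : ℂ) : Fin 4 → ℂ → ℂ :=
  ![fun z => ℘[L] (z + z₀), fun z => ℘'[L] (z + z₀), fun z => Wf L q (z + z₀),
    fun z => Fc L q c (z + z₀)]

/-- the derivatives -/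
def dels (F : IntermediateField ℚ ℂ) (g x c : F) : Fin 4 → MvPolynomial (Fin 4) F :=
  ![MvPolynomial.X 1, MvPolynomial.C 6 * MvPolynomial.X 0 ^ 2 - MvPolynomial.C g,
    MvPolynomial.C 2 * MvPolynomial.X 0 + MvPolynomial.C x - MvPolynomial.X 2 ^ 2,
    MvPolynomial.X 3 * (MvPolynomial.X 2 - MvPolynomial.C c)]

theorem degree_dels (F : IntermediateField ℚ ℂ) (g x c : F) (p : Fin 4) :
    (dels F g x c p).totalDegree ≤ 2 := by
  have hX : ∀ i : Fin 4, (MvPolynomial.X i : MvPolynomial (Fin 4) F).totalDegree ≤ 1 := fun i => by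
    rw [MvPolynomial.totalDegree_X]
  have hX2 : ∀ i : Fin 4, (MvPolynomial.X i ^ 2 : MvPolynomial (Fin 4) F).totalDegree ≤ 2 :=
    fun i => by rw [MvPolynomial.totalDegree_X_pow]
  have hC : ∀ a : F, (MvPolynomial.C a : MvPolynomial (Fin 4) F).totalDegree ≤ 0 := fun a => by
    rw [MvPolynomial.totalDegree_C]
  have hmul : ∀ (a b : MvPolynomial (Fin 4) F) {m n : ℕ}, a.totalDegree ≤ m →
      b.totalDegree ≤ n → (a * b).totalDegree ≤ m + n := fun a b m n ha hb =>
    (MvPolynomial.totalDegree_mul a b).trans (add_le_add ha hb)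
  have hsub : ∀ (a b : MvPolynomial (Fin 4) F) {m : ℕ}, a.totalDegree ≤ m →
      b.totalDegree ≤ m → (a - b).totalDegree ≤ m := fun a b m ha hb =>
    (MvPolynomial.totalDegree_sub a b).trans (max_le ha hb)
  have hadd : ∀ (a b : MvPolynomial (Fin 4) F) {m : ℕ}, a.totalDegree ≤ m →
      b.totalDegree ≤ m → (a + b).totalDegree ≤ m := fun a b m ha hb =>
    (MvPolynomial.totalDegree_add a b).trans (max_le ha hb)
  fin_cases p
  · exact (hX 1).trans (by norm_num)
  · exact hsub _ _ ((hmul _ _ (hC _) (hX2 0)).trans (by norm_num)) ((hC _).trans (by norm_num))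
  · exact hsub _ _ (hadd _ _ ((hmul _ _ (hC _) (hX 0)).trans (by norm_num))
      ((hC _).trans (by norm_num))) (hX2 2)
  · exact (hmul _ _ (hX 3) (hsub _ _ (hX 2) ((hC _).trans (by norm_num)))).trans (by norm_num)

/-- The theorem of Schneider and Lang applied to `℘` and `F_c`. -/
theorem no_alg (L : PeriodPair) (q c z₀ : ℂ) (F : IntermediateField ℚ ℂ) [FiniteDimensional ℚ F]
    (hg₂ : L.g₂ ∈ F) (hq : q ∉ L.lattice)
    (hPq : ℘[L] q ∈ F) (hPq' : ℘'[L] q ∈ F) (hc : c ∈ F)
    (hnt : ∀ n : ℕ, 0 < n → (n : ℂ) * z₀ ∉ L.lattice)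
    (hntq : ∀ n : ℕ, 0 < n → (n : ℂ) * z₀ + q ∉ L.lattice)
    (hntq' : ∀ n : ℕ, 0 < n → (n : ℂ) * z₀ - q ∉ L.lattice)
    (hP : ∀ n : ℕ, 0 < n → ℘[L] (n * z₀) ∈ F)
    (hP' : ∀ n : ℕ, 0 < n → ℘'[L] (n * z₀) ∈ F)
    (hF : ∀ n : ℕ, 0 < n → Fc L q c (n * z₀) ∈ F)
    (l : ℂ) (hl : l ∈ L.lattice)
    (hχ : ∀ n : ℕ, 0 < n → Complex.exp (-(l * zeta L q - eta L l * q + c * l)) ^ n ≠ 1) :
    False := by
  classical
  have hz₀ : z₀ ≠ 0 := by
    rintro rfl
    exact hnt 1 one_pos (by simp)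
  set O : Set ℂ := {z | 2 * (z + z₀) ∉ L.lattice ∧ (z + z₀) + q ∉ L.lattice ∧
    (z + z₀) - q ∉ L.lattice} with hO
  have hOo : IsOpen O := by
    have hcl := isOpen_compl L
    have o1 : IsOpen {z : ℂ | 2 * (z + z₀) ∉ L.lattice} :=
      hcl.preimage (f := fun z => 2 * (z + z₀)) (by fun_prop)
    have o2 : IsOpen {z : ℂ | (z + z₀) + q ∉ L.lattice} :=
      hcl.preimage (f := fun z => (z + z₀) + q) (by fun_prop)
    have o3 : IsOpen {z : ℂ | (z + z₀) - q ∉ L.lattice} :=
      hcl.preimage (f := fun z => (z + z₀) - q) (by fun_prop)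
    exact o1.inter (o2.inter o3)
  have hsz : ∀ s : ℕ, (s : ℂ) * z₀ + z₀ = ((s + 1 : ℕ) : ℂ) * z₀ := fun s => by
    push_cast; ring
  have grS := Gr.sigma L
  have grA : Gr (Afun L q) :=
    ((Gr.const _).mul (grS.mul grS)).sub ((Gr.const _).mul ((grS.shift q).mul (grS.shift (-q))))
  have grB : Gr (Bfun L q c) := (Gr.const _).mul ((grS.shift q).mul (Gr.exp _))
  have hshift : ∀ {f : ℂ → ℂ}, Differentiable ℂ f → Differentiable ℂ (fun z => f (z + z₀)) :=
    fun hf => hf.comp (differentiable_id.add_const z₀)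
  have hσ2 : Differentiable ℂ (fun z => sigma L z * sigma L z) :=
    (differentiable_sigma L).mul (differentiable_sigma L)
  have hWF : ∀ n : ℕ, 0 < n → Wf L q (n * z₀) ∈ F := by
    intro n hn
    rw [Wf]
    exact div_mem (sub_mem (hP' n hn) hPq') (mul_mem (ofNat_mem F 2) (sub_mem (hP n hn) hPq))
  obtain ⟨P, hP0, hP1⟩ := schneiderLang1 (vals L q c z₀) O hOo z₀ hz₀
    (by
      intro s
      show 2 * ((s : ℂ) * z₀ + z₀) ∉ L.lattice ∧ ((s : ℂ) * z₀ + z₀) + q ∉ L.lattice ∧
        ((s : ℂ) * z₀ + z₀) - q ∉ L.lattice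
      rw [hsz]
      refine ⟨?_, hntq _ (by omega), hntq' _ (by omega)⟩
      have := hnt (2 * (s + 1)) (by omega)
      convert this using 2
      push_cast; ring)
    F
    (by
      intro p s
      fin_cases p
      · show ℘[L] ((s : ℂ) * z₀ + z₀) ∈ F
        rw [hsz]; exact hP _ (by omega)
      · show ℘'[L] ((s : ℂ) * z₀ + z₀) ∈ F
        rw [hsz]; exact hP' _ (by omega)
      · show Wf L q ((s : ℂ) * z₀ + z₀) ∈ F
        rw [hsz]; exact hWF _ (by omega)
      · show Fc L q c ((s : ℂ) * z₀ + z₀) ∈ F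
        rw [hsz]; exact hF _ (by omega))
    (fun p => MvPolynomial.map (algebraMap F ℂ)
      (dels F ⟨L.g₂ / 2, div_mem hg₂ (ofNat_mem F 2)⟩ ⟨_, hPq⟩ ⟨c, hc⟩ p))
    (by
      intro p m
      rw [MvPolynomial.coeff_map]
      exact SetLike.coe_mem _)
    (by
      intro p
      exact (Finset.sup_mono (MvPolynomial.support_map_subset (algebraMap F ℂ) _)).trans
        (degree_dels F _ _ _ p))
    (by
      intro p z hz
      obtain ⟨h1, h2, h3⟩ := hz
      have h0 := two_mul_notMem_of L h1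
      fin_cases p
      · refine ((hasDerivAt_weierstrassP L h0).comp_add_const z z₀).congr_deriv ?_
        simp [dels, vals]
      · refine ((hasDerivAt_wp' L h1).comp_add_const z z₀).congr_deriv ?_
        simp [dels, vals]
        exact Or.inl rfl
      · refine ((hasDerivAt_Wf L h1 hq h2 h3).comp_add_const z z₀).congr_deriv ?_
        simp [dels, vals]
        exact Or.inl rfl
      · refine ((hasDerivAt_Fc' L h0 hq h2 h3).comp_add_const z z₀).congr_deriv ?_
        simp [dels, vals])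
    ![3, 0] (by
      intro i j hij
      fin_cases i <;> fin_cases j <;> simp_all)
    ![fun z => sigma L (z + z₀), fun z => sigma L (z + z₀) * sigma L (z + z₀)]
    ![fun z => Bfun L q c (z + z₀), fun z => Afun L q (z + z₀)]
    (by
      intro i
      fin_cases i
      · exact hshift (differentiable_sigma L)
      · exact hshift hσ2)
    (by
      intro i
      fin_cases i
      · exact hshift (differentiable_Bfun L q c)
      · exact hshift (differentiable_Afun L q))
    (by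
      intro i
      fin_cases i
      · exact grS.shift z₀
      · exact (grS.mul grS).shift z₀)
    (by
      intro i
      fin_cases i
      · exact grB.shift z₀
      · exact grA.shift z₀)
    (by
      intro i z hz
      obtain ⟨h1, h2, h3⟩ := hz
      have h0 := two_mul_notMem_of L h1
      have hs := sigma_ne_zero L h0
      fin_cases i
      · show sigma L (z + z₀) * Fc L q c (z + z₀) = Bfun L q c (z + z₀)
        rw [Fc_eq]
        field_simp
      · show sigma L (z + z₀) * sigma L (z + z₀) * ℘[L] (z + z₀) = Afun L q (z + z₀)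
        rw [wp_eq_Afun L h0 hq]
        field_simp)
    (by
      intro i s
      have hs := sigma_ne_zero L (hnt (s + 1) (by omega))
      fin_cases i
      · show sigma L ((s : ℂ) * z₀ + z₀) ≠ 0
        rw [hsz]; exact hs
      · show sigma L ((s : ℂ) * z₀ + z₀) * sigma L ((s : ℂ) * z₀ + z₀) ≠ 0
        rw [hsz]; exact mul_ne_zero hs hs)
  apply hP0
  refine indep_C L (Fc L q c) _ l q hl hq hχ (Complex.exp_ne_zero _)
    (fun z => Fc_add_coe L hl q c z) (fun z hz hzq => Fc_ne_zero L hz hq hzq) P ?_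
  intro w h1 h2 h3
  have h0 := two_mul_notMem_of L h1
  have hw : w - z₀ + z₀ = w := by ring
  have h4 := hP1 (w - z₀) (by
    show 2 * (w - z₀ + z₀) ∉ L.lattice ∧ (w - z₀ + z₀) + q ∉ L.lattice ∧
      (w - z₀ + z₀) - q ∉ L.lattice
    rw [hw]
    exact ⟨h1, h2, h3⟩) (by
    intro i
    have hs := sigma_ne_zero L h0
    fin_cases i
    · show sigma L (w - z₀ + z₀) ≠ 0
      rw [hw]; exact hs
    · show sigma L (w - z₀ + z₀) * sigma L (w - z₀ + z₀) ≠ 0
      rw [hw]; exact mul_ne_zero hs hs)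
  have h5 : (fun i => vals L q c z₀ ((![3, 0] : Fin 2 → Fin 4) i) (w - z₀)) =
      (Fin.cons (Fc L q c w) ![℘[L] w] : Fin 2 → ℂ) := by
    funext i
    fin_cases i
    · show Fc L q c (w - z₀ + z₀) = Fc L q c w
      rw [hw]
    · show ℘[L] (w - z₀ + z₀) = ℘[L] w
      rw [hw]
  rw [h5] at h4
  exact h4

end Pool.Agent.Y92.RB
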