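import Pool.Agent.Y102.SL

set_option autoImplicit false

/-!
# The theorem of Schneider and Lang for functions of one variable with values in a number field
-/

open MvPolynomial NumberField

noncomputable section

namespace Pool.Agent.Y92.RB

open Pool.Agent.W245.EB

theorem grE_of_gr {f : ℂ → ℂ} (hf : H667R3.Gr f) : GrE (fun z : Fin 1 → ℂ => f (z 0)) := by
  obtain ⟨C, hC, h⟩ := hf
  refine ⟨C, hC, fun z => (h (z 0)).trans (Real.exp_le_exp.mpr ?_)⟩
  have h1 : ‖z 0‖ ≤ ‖z‖ := norm_le_pi_norm z 0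
  have h2 : ‖z 0‖ ^ 3 ≤ ‖z‖ ^ 3 := by gcongr
  apply mul_le_mul_of_nonneg_left _ hC
  linarith

theorem schneiderLang1 {V : Type} [Fintype V] (val : V → ℂ → ℂ) (O : Set ℂ) (hO : IsOpen O)
    (u : ℂ) (hu : u ≠ 0) (hpt : ∀ s : ℕ, (s : ℂ) * u ∈ O)
    (F : IntermediateField ℚ ℂ) [FiniteDimensional ℚ F]
    (hval : ∀ p, ∀ s : ℕ, val p (s * u) ∈ F)
    (δ : V → MvPolynomial V ℂ) (hδa : ∀ p m, (δ p).coeff m ∈ F)
    (hδ : ∀ p, (δ p).totalDegree ≤ 2)
    (hD : ∀ p, ∀ z ∈ O, HasDerivAt (val p) (MvPolynomial.eval (fun q => val q z) (δ p)) z)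
    (b : Fin 2 → V) (hb : Function.Injective b)
    (Th A : Fin 2 → ℂ → ℂ) (hTha : ∀ i, Differentiable ℂ (Th i))
    (hAa : ∀ i, Differentiable ℂ (A i)) (hThg : ∀ i, H667R3.Gr (Th i))
    (hAg : ∀ i, H667R3.Gr (A i))
    (hTh : ∀ i, ∀ z ∈ O, Th i z * val (b i) z = A i z)
    (hne : ∀ i, ∀ s : ℕ, Th i (s * u) ≠ 0) :
    ∃ P : MvPolynomial (Fin 2) ℂ, P ≠ 0 ∧ ∀ z ∈ O, (∀ i, Th i z ≠ 0) →
      MvPolynomial.eval (fun i => val (b i) z) P = 0 := by
  classical
  by_contra hcon
  push Not at hcon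
  have hNF : NumberField F := { to_charZero := inferInstance, to_finiteDimensional := inferInstance }
  set S : ℕ := AD.Snum 1 (Module.finrank ℚ F) with hS
  -- the finite set of numbers
  set s : Finset ℂ := (Finset.univ.image fun p : V × Fin S => val p.1 (((p.2 : ℕ) : ℂ) * u)) ∪
    Finset.univ.biUnion fun q : V => (δ q).support.image fun m => (δ q).coeff m
    with hs
  have hsF : ∀ x ∈ s, x ∈ F := by
    intro x hx
    rw [hs, Finset.mem_union] at hx
    rcases hx with hx | hx
    · obtain ⟨p, _, rfl⟩ := Finset.mem_image.1 hx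
      exact hval p.1 p.2
    · obtain ⟨q, _, hq⟩ := Finset.mem_biUnion.1 hx
      obtain ⟨m, _, rfl⟩ := Finset.mem_image.1 hq
      exact hδa _ _
  obtain ⟨c, hc0, hc⟩ := exists_integral_multiples ℤ ℚ
    (Finset.univ.image (fun x : s => (⟨x.1, hsF _ x.2⟩ : F)))
  have hcC : (c : ℂ) ≠ 0 := by exact_mod_cast hc0
  have hint : ∀ x (hx : x ∈ s), IsIntegral ℤ (c • (⟨x, hsF _ hx⟩ : F)) := by
    intro x hx
    exact hc _ (Finset.mem_image.2 ⟨⟨x, hx⟩, Finset.mem_univ _, rfl⟩)
  have hv0 : ∀ (p : V) (r : Fin S), val p (((r : ℕ) : ℂ) * u) ∈ s := fun p r => by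
    rw [hs, Finset.mem_union]
    exact Or.inl (Finset.mem_image.2 ⟨(p, r), Finset.mem_univ _, rfl⟩)
  have hco : ∀ p m, m ∈ (δ p).support → (δ p).coeff m ∈ s := fun p m hm => by
    rw [hs, Finset.mem_union]
    exact Or.inr (Finset.mem_biUnion.2 ⟨p, Finset.mem_univ _,
      Finset.mem_image.2 ⟨m, hm, rfl⟩⟩)
  let X0 : V → Fin S → 𝓞 F := fun p r =>
    ⟨c • ⟨val p (((r : ℕ) : ℂ) * u), hsF _ (hv0 p r)⟩, hint _ (hv0 p r)⟩
  have hcfe : ∀ p m, ∃ y : 𝓞 F, ((y : F) : ℂ) = c * (δ p).coeff m := by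
    intro p m
    by_cases hm : m ∈ (δ p).support
    · refine ⟨⟨c • ⟨(δ p).coeff m, hsF _ (hco p m hm)⟩, hint _ (hco p m hm)⟩, ?_⟩
      change ((c • (⟨(δ p).coeff m, hsF _ (hco p m hm)⟩ : F) : F) : ℂ) = _
      rw [zsmul_eq_mul]
      simp
    · refine ⟨0, ?_⟩
      rw [MvPolynomial.notMem_support_iff.1 hm]
      simp
  choose cf hcf using hcfe
  have hptE : ∀ r : Fin 1 → Fin S,
      (∑ k, ((r k : ℕ) : ℂ) • (fun _ _ => u : Fin 1 → Fin 1 → ℂ) k) 0 = ((r 0 : ℕ) : ℂ) * u := by
    intro r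
    rw [Fin.sum_univ_one]
    rfl
  have hdiff : ∀ p : V, ∀ z : Fin 1 → ℂ, z 0 ∈ O →
      HasFDerivAt (fun z : Fin 1 → ℂ => val p (z 0))
        ((MvPolynomial.eval (fun q => val q (z 0)) (δ p)) •
          (ContinuousLinearMap.proj 0 : (Fin 1 → ℂ) →L[ℂ] ℂ)) z := by
    intro p z hz
    have h0 : HasFDerivAt (fun z : Fin 1 → ℂ => z 0)
        (ContinuousLinearMap.proj 0 : (Fin 1 → ℂ) →L[ℂ] ℂ) z :=
      (ContinuousLinearMap.proj 0 : (Fin 1 → ℂ) →L[ℂ] ℂ).hasFDerivAt
    exact (hD p (z 0) hz).comp_hasFDerivAt z h0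
  have hOo : IsOpen {z : Fin 1 → ℂ | z 0 ∈ O} := hO.preimage (by fun_prop)
  have hproj : ∀ z : Fin 1 → ℂ, AnalyticAt ℂ (fun z : Fin 1 → ℂ => z 0) z := fun z =>
    (ContinuousLinearMap.proj 0 : (Fin 1 → ℂ) →L[ℂ] ℂ).analyticAt z
  have hcomp : ∀ (f : ℂ → ℂ) (z : Fin 1 → ℂ), AnalyticAt ℂ f (z 0) →
      AnalyticAt ℂ (fun z : Fin 1 → ℂ => f (z 0)) z := fun f z hf =>
    AnalyticAt.comp (g := f) (f := fun z : Fin 1 → ℂ => z 0) (x := z) hf (hproj z)
  have hvan : ∀ p, ∀ z ∈ O, AnalyticAt ℂ (val p) z := by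
    intro p z hz
    rw [Complex.analyticAt_iff_eventually_differentiableAt]
    filter_upwards [hO.mem_nhds hz] with w hw
    exact (hD p w hw).differentiableAt
  have hent : ∀ f : ℂ → ℂ, Differentiable ℂ f → ∀ z, AnalyticAt ℂ f z := fun f hf z =>
    hf.analyticAt z
  let e : AD 1 S :=
    { K := F
      ph := algebraMap F ℂ
      V := V
      val := fun p z => c * val p (z 0)
      O := {z | z 0 ∈ O}
      isOpen_O := hOo
      analytic_val := fun p z hz => analyticAt_const.mul (hcomp _ z (hvan p _ hz))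
      U := fun _ _ => u
      hU := by
        rw [Fintype.linearIndependent_iff]
        intro g hg i
        have h1 := congrFun hg 0
        rw [Fin.sum_univ_one] at h1
        have h2 : g 0 * u = 0 := h1
        have h3 := (mul_eq_zero.1 h2).resolve_right hu
        rw [Fin.fin_one_eq_zero i]
        exact h3
      pt_mem := fun r => by
        change (∑ k, ((r k : ℕ) : ℂ) • (fun _ _ => u : Fin 1 → Fin 1 → ℂ) k) 0 ∈ O
        rw [hptE]
        exact hpt _
      X := fun p r => X0 p (r 0)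
      hX := by
        intro p r
        rw [hptE]
        change ((c • (⟨val p (((r 0 : ℕ) : ℂ) * u), hsF _ (hv0 p (r 0))⟩ : F) : F) : ℂ) = _
        rw [zsmul_eq_mul]
        simp
      δ := fun _ p => ∑ m ∈ (δ p).support, monomial m (cf p m * (c : 𝓞 F) ^ (2 - m.degree))
      hδ := by
        intro j p
        refine MvPolynomial.totalDegree_finsetSum_le fun m hm => ?_
        refine (MvPolynomial.totalDegree_monomial_le _ _).trans ?_
        exact (MvPolynomial.le_totalDegree hm).trans (hδ p)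
      v := fun _ => (c : ℂ) ^ 2 • (fun _ => 1)
      spans_v := by
        intro w
        refine ⟨fun j => w j / (c : ℂ) ^ 2, ?_⟩
        funext k
        rw [Finset.sum_apply, Fin.sum_univ_one, Fin.fin_one_eq_zero k]
        simp only [Pi.smul_apply, smul_eq_mul]
        field_simp
      D_val := by
        intro j p z hz
        have h1 : D ((c : ℂ) ^ 2 • (fun _ => 1)) (fun z : Fin 1 → ℂ => c * val p (z 0)) z =
            (c : ℂ) ^ 3 * MvPolynomial.eval (fun q => val q (z 0)) (δ p) := by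
          rw [D_smul_vec, D_const_mul_fun (hdiff p z hz).differentiableAt, D,
            (hdiff p z hz).fderiv]
          simp only [smul_apply, ContinuousLinearMap.proj_apply, smul_eq_mul,
            mul_one]
          ring
        rw [h1]
        simp only [ev]
        rw [MvPolynomial.eval₂_sum]
        conv_lhs => rw [MvPolynomial.eval_eq]
        rw [Finset.mul_sum]
        refine Finset.sum_congr rfl fun m hm => ?_
        rw [MvPolynomial.eval₂_monomial]
        have h2 : m.degree ≤ 2 := by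
          have := (MvPolynomial.le_totalDegree hm).trans (hδ p)
          exact this
        have h3 : (m.prod fun n e => ((c : ℂ) * val n (z 0)) ^ e) =
            (c : ℂ) ^ m.degree * ∏ d ∈ m.support, val d (z 0) ^ m d := by
          rw [Finsupp.prod, Finsupp.degree_apply, ← Finset.prod_pow_eq_pow_sum,
            ← Finset.prod_mul_distrib]
          refine Finset.prod_congr rfl fun d _ => ?_
          rw [mul_pow]
        rw [h3]
        simp only [map_mul, map_pow, RingHom.comp_apply, map_intCast]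
        have h4 : (algebraMap F ℂ) ((algebraMap (𝓞 F) F) (cf p m)) = c * (δ p).coeff m :=
          hcf p m
        rw [h4]
        have h5 : (c : ℂ) ^ 3 = c * (c ^ (2 - m.degree) * c ^ m.degree) := by
          rw [← pow_add, Nat.sub_add_cancel h2]
          ring
        rw [h5]
        ring
      I := Fin 2
      cardI := by simp
      b := b
      hb := hb
      Th := fun i z => Th i (z 0)
      A := fun i z => c * A i (z 0)
      analytic_Th := fun i z _ => hcomp _ z (hent _ (hTha i) _)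
      analytic_A := fun i z _ => analyticAt_const.mul (hcomp _ z (hent _ (hAa i) _))
      gr_Th := fun i => grE_of_gr (hThg i)
      gr_A := fun i => Y102.grE_const_mul (grE_of_gr (hAg i)) c
      hTh := by
        intro i z hz
        rw [← hTh i (z 0) hz]
        ring
      Th_ne := fun i r => by
        rw [hptE]
        exact hne i _
      indep := by
        intro P hP
        let Q : MvPolynomial (Fin 2) ℂ := MvPolynomial.aeval (fun i => C (c : ℂ) * X i) P
        have hQe : ∀ x : Fin 2 → ℂ, MvPolynomial.eval x Q =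
            MvPolynomial.eval (fun i => c * x i) P := fun x => Y102.eval_scale (c : ℂ) P x
        have hQ0 : Q ≠ 0 := by
          intro hQ
          apply hP
          apply MvPolynomial.funext
          intro x
          have h1 := hQe fun i => (c : ℂ)⁻¹ * x i
          rw [hQ, map_zero] at h1
          have h2 : (fun i => (c : ℂ) * ((c : ℂ)⁻¹ * x i)) = x := by
            funext i
            field_simp
          rw [h2] at h1
          rw [← h1, map_zero]
        obtain ⟨z, hz, hz1, hz2⟩ := hcon Q hQ0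
        refine ⟨fun _ => z, hz, hz1, ?_⟩
        rw [hQe] at hz2
        exact hz2 }
  exact e.false one_pos rfl

end Pool.Agent.Y92.RB
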