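import Pool.Agent.W245.EB.CMz2
import Pool.Agent.H667R3.E1

set_option autoImplicit false

/-! The multiplication formula for `σ²` and the action on the quasi-periods. -/

open Filter hiding ker mem_ker
open scoped Topology PeriodPair Classical

noncomputable section

namespace Pool.Agent.Y92.RB

open H667R3 Pool.Agent.W245.EB

variable {L : PeriodPair} {α : ℂ}

theorem exists_notMem_mul (L : PeriodPair) (hα : α ≠ 0) : ∃ z, α * z ∉ L.lattice :=
  ⟨(scL L α hα).ω₁ / 2, fun h => (scL L α hα).ω₁_div_two_notMem_lattice (mem_scL.2 h)⟩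

theorem eta_mul (hα : α ≠ 0) (hm : ∀ w ∈ L.lattice, α * w ∈ L.lattice) {c : ℂ}
    (hc : ∀ z, α * z ∉ L.lattice →
      α ^ 2 * ℘[L] (α * z) = ∑ x ∈ ker hα hm, ℘[L] (z - x.out) + c)
    {l : ℂ} (hl : l ∈ L.lattice) :
    α * eta L (α * l) = (ker hα hm).card * eta L l - c * l := by
  obtain ⟨c₂, h⟩ := zeta_mul hα hm hc
  obtain ⟨z, hz⟩ := exists_notMem_mul L hα
  have hz' : α * (z + l) ∉ L.lattice := by
    rw [mul_add, add_mem_iff L (hm _ hl)]; exact hz
  have e1 := h z hz
  have e2 := h (z + l) hz'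
  rw [mul_add, zeta_add_coe L hz (hm _ hl)] at e2
  have e3 : ∑ x ∈ ker hα hm, zeta L (z + l - x.out) =
      ∑ x ∈ ker hα hm, zeta L (z - x.out) + (ker hα hm).card * eta L l := by
    have : ∀ x ∈ ker hα hm, zeta L (z + l - x.out) = zeta L (z - x.out) + eta L l := by
      intro x hx
      rw [add_sub_right_comm, zeta_add_coe L (sub_out_notMem hz hx) hl]
    rw [Finset.sum_congr rfl this, Finset.sum_add_distrib, Finset.sum_const, nsmul_eq_mul]
  rw [e3] at e2
  linear_combination e2 - e1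

theorem hasDerivAt_prod_log {ι : Type*} (s : Finset ι) (f : ι → ℂ → ℂ) (lam : ι → ℂ) {z : ℂ}
    (h : ∀ i ∈ s, HasDerivAt (f i) (f i z * lam i) z) :
    HasDerivAt (fun w => ∏ i ∈ s, f i w) ((∏ i ∈ s, f i z) * ∑ i ∈ s, lam i) z := by
  classical
  induction s using Finset.induction_on with
  | empty => simpa using hasDerivAt_const z (1 : ℂ)
  | insert i s hi ih =>
    have h1 := h i (Finset.mem_insert_self i s)
    have h2 := ih fun j hj => h j (Finset.mem_insert_of_mem hj)
    have h3 := h1.fun_mul h2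
    have e : (fun w => ∏ j ∈ insert i s, f j w) = fun w => f i w * ∏ j ∈ s, f j w := by
      funext w
      rw [Finset.prod_insert hi]
    rw [e, Finset.prod_insert hi, Finset.sum_insert hi]
    refine h3.congr_deriv ?_
    ring

lemma out_notMem {hα : α ≠ 0} {hm : ∀ w ∈ L.lattice, α * w ∈ L.lattice} {x : Qt L}
    (hx : x ∈ (ker hα hm).erase 0) : x.out ∉ L.lattice := by
  intro h
  rw [Finset.mem_erase] at hx
  apply hx.1
  rw [← QuotientAddGroup.out_eq' x]
  have : (0 : Qt L) = QuotientAddGroup.mk 0 := rfl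
  rw [this, mk_eq_iff, sub_zero]
  exact h

lemma add_out_notMem {hα : α ≠ 0} {hm : ∀ w ∈ L.lattice, α * w ∈ L.lattice} {z : ℂ}
    (hz : α * z ∉ L.lattice) {x : Qt L} (hx : x ∈ ker hα hm) : z + x.out ∉ L.lattice := by
  intro h
  apply hz
  rw [mem_ker] at hx
  have h1 := sub_mem (hm _ h) hx
  rwa [show α * (z + x.out) - α * x.out = α * z by ring] at h1

/-- the right side of the multiplication formula -/
def Rfun (hα : α ≠ 0) (hm : ∀ w ∈ L.lattice, α * w ∈ L.lattice) (c z : ℂ) : ℂ :=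
  Complex.exp (-(c * z ^ 2)) * sigma L z ^ 2 * ∏ x ∈ (ker hα hm).erase 0,
    (-(sigma L (z + x.out) * sigma L (z - x.out)) / sigma L x.out ^ 2)

/-- the logarithmic derivative -/
def Lam (hα : α ≠ 0) (hm : ∀ w ∈ L.lattice, α * w ∈ L.lattice) (c z : ℂ) : ℂ :=
  -(2 * c * z) + ∑ x ∈ ker hα hm, (zeta L (z + x.out) + zeta L (z - x.out))

theorem notMem_of_mul (hm : ∀ w ∈ L.lattice, α * w ∈ L.lattice) {z : ℂ}
    (hz : α * z ∉ L.lattice) : z ∉ L.lattice := fun h => hz (hm _ h)

theorem hasDerivAt_Rfun (hα : α ≠ 0) (hm : ∀ w ∈ L.lattice, α * w ∈ L.lattice) (c : ℂ) {z : ℂ}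
    (hz : α * z ∉ L.lattice) :
    HasDerivAt (Rfun hα hm c) (Rfun hα hm c z * Lam hα hm c z) z := by
  have hz0 := notMem_of_mul hm hz
  have d1 : HasDerivAt (fun w : ℂ => Complex.exp (-(c * w ^ 2)))
      (Complex.exp (-(c * z ^ 2)) * (-(2 * c * z))) z := by
    have : HasDerivAt (fun w : ℂ => -(c * w ^ 2)) (-(2 * c * z)) z := by
      have := ((hasDerivAt_id z).pow 2).const_mul (-c)
      refine (this.congr_deriv ?_).congr_of_eventuallyEq ?_
      · simp; ring
      · filter_upwards with w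
        simp
    exact this.cexp
  have d2 : HasDerivAt (fun w => sigma L w ^ 2) (sigma L z ^ 2 * (2 * zeta L z)) z := by
    refine ((hasDerivAt_sigma L hz0).fun_pow 2).congr_deriv ?_
    norm_num
    ring
  have d3 := hasDerivAt_prod_log ((ker hα hm).erase 0)
    (fun x w => -(sigma L (w + x.out) * sigma L (w - x.out)) / sigma L x.out ^ 2)
    (fun x => zeta L (z + x.out) + zeta L (z - x.out)) (z := z) (by
      intro x hx
      have hx' := Finset.mem_of_mem_erase hx
      have a1 := (hasDerivAt_sigma L (add_out_notMem hz hx')).comp_add_const z x.out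
      have a2 := (hasDerivAt_sigma L (sub_out_notMem hz hx')).comp_sub_const z x.out
      refine ((a1.fun_mul a2).fun_neg.div_const (sigma L x.out ^ 2)).congr_deriv ?_
      ring)
  have d4 := (d1.fun_mul d2).fun_mul d3
  refine d4.congr_deriv ?_
  rw [Lam, ← Finset.add_sum_erase _ _ (zero_mem_ker hα hm), Rfun]
  have e0 : zeta L (z + (0 : Qt L).out) + zeta L (z - (0 : Qt L).out) = 2 * zeta L z := by
    have h2 := out_sub_mem (L := L) 0
    rw [sub_zero] at h2
    have h2' : (0 : Qt L).out ∈ L.lattice := h2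
    rw [zeta_add_coe L hz0 h2', sub_eq_add_neg, zeta_add_coe L hz0 (neg_mem h2'), eta_neg L h2']
    ring
  rw [e0]
  ring

theorem Rfun_ne_zero (hα : α ≠ 0) (hm : ∀ w ∈ L.lattice, α * w ∈ L.lattice) (c : ℂ) {z : ℂ}
    (hz : α * z ∉ L.lattice) : Rfun hα hm c z ≠ 0 := by
  rw [Rfun]
  refine mul_ne_zero (mul_ne_zero (Complex.exp_ne_zero _)
    (pow_ne_zero _ (sigma_ne_zero L (notMem_of_mul hm hz)))) ?_
  rw [Finset.prod_ne_zero_iff]
  intro x hx
  have hx' := Finset.mem_of_mem_erase hx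
  exact div_ne_zero (neg_ne_zero.2 (mul_ne_zero (sigma_ne_zero L (add_out_notMem hz hx'))
    (sigma_ne_zero L (sub_out_notMem hz hx')))) (pow_ne_zero _ (sigma_ne_zero L (out_notMem hx)))

theorem Lam_eq (hα : α ≠ 0) (hm : ∀ w ∈ L.lattice, α * w ∈ L.lattice) {c : ℂ}
    (hc : ∀ z, α * z ∉ L.lattice →
      α ^ 2 * ℘[L] (α * z) = ∑ x ∈ ker hα hm, ℘[L] (z - x.out) + c) {z : ℂ}
    (hz : α * z ∉ L.lattice) : 2 * α * zeta L (α * z) = Lam hα hm c z := by
  obtain ⟨c₂, h⟩ := zeta_mul hα hm hc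
  have e1 := h z hz
  have e2 := h (-z) (by
    intro h'
    apply hz
    have := neg_mem h'
    rwa [mul_neg, neg_neg] at this)
  have e3 : ∑ x ∈ ker hα hm, zeta L (-z - x.out) = -∑ x ∈ ker hα hm, zeta L (z + x.out) := by
    rw [← Finset.sum_neg_distrib]
    apply Finset.sum_congr rfl
    intro x _
    rw [← zeta_neg]
    congr 1
    ring
  rw [e3, mul_neg, zeta_neg] at e2
  rw [Lam, Finset.sum_add_distrib]
  linear_combination e1 - e2

/-- the multiplication formula for `σ²` -/
theorem sigma_mul_sq' (hα : α ≠ 0) (hm : ∀ w ∈ L.lattice, α * w ∈ L.lattice) {c : ℂ}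
    (hc : ∀ z, α * z ∉ L.lattice →
      α ^ 2 * ℘[L] (α * z) = ∑ x ∈ ker hα hm, ℘[L] (z - x.out) + c) {z : ℂ}
    (hz : α * z ∉ L.lattice) : sigma L (α * z) ^ 2 = α ^ 2 * Rfun hα hm c z := by
  set g : ℂ → ℂ := fun z => sigma L (α * z) ^ 2 / Rfun hα hm c z with hg
  have hder : ∀ z, z ∉ (scL L α hα).lattice → HasDerivAt g 0 z := by
    intro z hz
    have hz' : α * z ∉ L.lattice := fun h => hz (mem_scL.2 h)
    have d1 : HasDerivAt (fun z => sigma L (α * z) ^ 2)
        (sigma L (α * z) ^ 2 * (2 * α * zeta L (α * z))) z := by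
      have h0 : HasDerivAt (fun x : ℂ => α * x) α z := by
        simpa using (hasDerivAt_id z).const_mul α
      refine (((hasDerivAt_sigma L hz').comp z h0).fun_pow 2).congr_deriv ?_
      simp only [Function.comp_apply]
      norm_num
      ring
    have hR := Rfun_ne_zero hα hm c hz'
    refine (d1.fun_div (hasDerivAt_Rfun hα hm c hz') hR).congr_deriv ?_
    rw [Lam_eq hα hm hc hz']
    field_simp
    ring
  obtain ⟨z₀, hz₀⟩ : ∃ z₀, z₀ ∉ (scL L α hα).lattice := ⟨_, (scL L α hα).ω₁_div_two_notMem_lattice⟩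
  have hconst : ∀ z, α * z ∉ L.lattice → sigma L (α * z) ^ 2 = g z₀ * Rfun hα hm c z := by
    intro z hz
    have h1 : g z = g z₀ :=
      (isOpen_compl (scL L α hα)).is_const_of_deriv_eq_zero (isPreconnected_compl (scL L α hα))
        (fun x hx => (hder x hx).differentiableAt.differentiableWithinAt)
        (fun x hx => (hder x hx).deriv) (fun h => hz (mem_scL.1 h)) hz₀
    rw [← h1, hg]
    have := Rfun_ne_zero hα hm c hz
    field_simp
  -- the constant
  have hC : g z₀ = α ^ 2 := by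
    set A : ℂ → ℂ := fun z => α ^ 2 * Pi' L (α * z) ^ 2 with hA
    set B : ℂ → ℂ := fun z => g z₀ * (Complex.exp (-(c * z ^ 2)) * Pi' L z ^ 2 *
      ∏ x ∈ (ker hα hm).erase 0,
        (-(sigma L (z + x.out) * sigma L (z - x.out)) / sigma L x.out ^ 2)) with hB
    have hAc : ContinuousAt A 0 := by
      have := (differentiable_Pi' L).continuous
      have h2 : Continuous A := by
        rw [hA]
        fun_prop
      exact h2.continuousAt
    have hBc : ContinuousAt B 0 := by
      have h1 := (differentiable_Pi' L).continuous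
      have h3 := (differentiable_sigma L).continuous
      have h2 : Continuous B := by
        rw [hB]
        refine continuous_const.mul (((by fun_prop : Continuous fun z : ℂ =>
          Complex.exp (-(c * z ^ 2))).mul (h1.pow 2)).mul ?_)
        apply continuous_finset_prod
        intro x _
        apply Continuous.div_const
        apply Continuous.neg
        exact (h3.comp (continuous_id.add continuous_const)).mul
          (h3.comp (continuous_id.sub continuous_const))
      exact h2.continuousAt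
    have hev : ∀ᶠ z in 𝓝[≠] (0 : ℂ), A z = B z := by
      have h1 : ∀ᶠ z in 𝓝[≠] (0 : ℂ), z ∉ (scL L α hα).lattice := by
        filter_upwards [self_mem_nhdsWithin, mem_nhdsWithin_of_mem_nhds
          ((scL L α hα).compl_lattice_sdiff_singleton_mem_nhds 0)] with w hw hw'
        simp_all
      filter_upwards [h1, self_mem_nhdsWithin] with z hz hz0
      have hz0' : z ≠ 0 := hz0
      have h2 := hconst z (fun h => hz (mem_scL.2 h))
      rw [Rfun, sigma_eq_mul, sigma_eq_mul L z] at h2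
      apply mul_left_cancel₀ (pow_ne_zero 2 hz0')
      rw [hA, hB]
      linear_combination h2
    have h0 : A 0 = B 0 := by
      have t1 : Tendsto A (𝓝[≠] 0) (𝓝 (A 0)) := hAc.tendsto.mono_left nhdsWithin_le_nhds
      have t2 : Tendsto B (𝓝[≠] 0) (𝓝 (B 0)) := hBc.tendsto.mono_left nhdsWithin_le_nhds
      exact tendsto_nhds_unique t1 (t2.congr' (hev.mono fun z h => h.symm))
    have h1 : ∏ x ∈ (ker hα hm).erase 0,
        (-(sigma L (0 + x.out) * sigma L (0 - x.out)) / sigma L x.out ^ 2) = 1 := by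
      apply Finset.prod_eq_one
      intro x hx
      have := sigma_ne_zero L (out_notMem hx)
      rw [zero_add, zero_sub, sigma_neg]
      field_simp
    rw [hA, hB] at h0
    simp only at h0
    rw [h1] at h0
    simp only [mul_zero, Pi'_zero] at h0
    norm_num at h0
    exact h0.symm
  rw [hconst z hz, hC]

/-- the multiplication formula for `σ²` -/
theorem sigma_mul_sq (hα : α ≠ 0) (hm : ∀ w ∈ L.lattice, α * w ∈ L.lattice) {c : ℂ}
    (hc : ∀ z, α * z ∉ L.lattice →
      α ^ 2 * ℘[L] (α * z) = ∑ x ∈ ker hα hm, ℘[L] (z - x.out) + c) {z : ℂ}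
    (hz : α * z ∉ L.lattice) : sigma L (α * z) ^ 2 =
      α ^ 2 * Complex.exp (-(c * z ^ 2)) * (sigma L z ^ 2) ^ (ker hα hm).card *
        ∏ x ∈ (ker hα hm).erase 0, (℘[L] z - ℘[L] x.out) := by
  have hz0 := notMem_of_mul hm hz
  have hs := sigma_ne_zero L hz0
  rw [sigma_mul_sq' hα hm hc hz, Rfun]
  have h1 : ∏ x ∈ (ker hα hm).erase 0,
      (-(sigma L (z + x.out) * sigma L (z - x.out)) / sigma L x.out ^ 2) =
      ∏ x ∈ (ker hα hm).erase 0, (sigma L z ^ 2 * (℘[L] z - ℘[L] x.out)) := by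
    apply Finset.prod_congr rfl
    intro x hx
    have hx0 := out_notMem hx
    have := sigma_ne_zero L hx0
    rw [wp_sub_wp L hz0 hx0]
    field_simp
  rw [h1, Finset.prod_mul_distrib, Finset.prod_const, Finset.card_erase_of_mem
    (zero_mem_ker hα hm)]
  have hcard : 0 < (ker hα hm).card := Finset.card_pos.2 ⟨0, zero_mem_ker hα hm⟩
  obtain ⟨n, hn⟩ : ∃ n, (ker hα hm).card = n + 1 := ⟨(ker hα hm).card - 1, by omega⟩
  rw [hn, Nat.add_sub_cancel, pow_succ]
  ring

theorem prod_ne_zero (hα : α ≠ 0) (hm : ∀ w ∈ L.lattice, α * w ∈ L.lattice) {z : ℂ}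
    (hz : α * z ∉ L.lattice) : ∏ x ∈ (ker hα hm).erase 0, (℘[L] z - ℘[L] x.out) ≠ 0 := by
  rw [Finset.prod_ne_zero_iff]
  intro x hx
  have hx' := Finset.mem_of_mem_erase hx
  rw [sub_ne_zero, Ne, wp_eq_iff L (notMem_of_mul hm hz) (out_notMem hx)]
  intro h
  rcases h with h | h
  · first
      | exact add_out_notMem hz hx' h
      | exact sub_out_notMem hz hx' h
  · first
      | exact add_out_notMem hz hx' h
      | exact sub_out_notMem hz hx' h

end Pool.Agent.Y92.RB
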